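import Pool.Agent.Y603.CM.Level

/-!
# The commuting metric approximation property of free `p`-spaces over countable proper spaces

For every `p` in `(0, 1]` and every countable proper metric space `M` the Lipschitz free `p`-space
over `M` is separable and has the commuting metric approximation property: there are finite rank
operators of norm at most one, any two of which commute, which converge to the identity pointwise.

The question asks for the metric approximation property (`p < 1`), which was proved in the starting
file `CountableProperMAP`, by products of cutoff operators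
`T (δ x - δ y) = g x (δ x - δ x₀) - g y (δ y - δ x₀)`. Two such operators, with centres `x₁`, `x₂` and
functions `g₁`, `g₂`, commute if `(g₁ y - g₁ x₂) (g₂ y - g₂ x₁) = 0` for all `y`. Since `M` is
countable, the functions `g` can be chosen locally constant off the centre: `g x` is a function of
`log (dist x x₀)` which grows only on a closed set that misses all the values of this function, but
has almost full measure. Then the cutoffs are chosen one after the other, each of them in a small
ball on which all earlier functions (with other centres) are constant, or, at infinity, outside of a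
ball that contains all earlier small balls.
-/

set_option autoImplicit false

open Set Filter Topology
open Pool.Agent.H548R3.PFree

namespace Pool.Agent.Results.MP_557517_an.CommutingMAP

/-- The commuting metric approximation property. -/
def HasCommutingMAP (p : ℝ) (Z : Type) [NormedAddCommGroup Z] [Module ℝ Z] : Prop :=
  TopologicalSpace.SeparableSpace Z ∧
  ∃ T : ℕ → (Z →L[ℝ] Z), (∀ m n, (T m).comp (T n) = (T n).comp (T m)) ∧
    (∀ n, FiniteDimensional ℝ (LinearMap.range (T n : Z →ₗ[ℝ] Z))) ∧
    (∀ n z, pnorm p (T n z) ≤ pnorm p z) ∧ ∀ z, Tendsto (fun n => T n z) atTop (𝓝 z)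

theorem result (p : ℝ) (h0 : 0 < p) (h1 : p ≤ 1) (M : Type) [MetricSpace M] [ProperSpace M]
    [Countable M] (o : M) :
    (∃ (Z : Type) (_ : NormedAddCommGroup Z) (_ : Module ℝ Z) (δ : M → Z),
      IsLipschitzFree p M o Z δ) ∧
    ∀ (Z : Type) [NormedAddCommGroup Z] [Module ℝ Z] (δ : M → Z),
      IsLipschitzFree p M o Z δ → HasCommutingMAP p Z := by
  have hp : Fact (0 < p ∧ p ≤ 1) := ⟨h0, h1⟩
  refine ⟨⟨FF p M, inferInstance, inferInstance, fun x => cl x o, isLipschitzFree o⟩,
    fun Z _ _ δ h => ⟨?_, ?_⟩⟩
  · have hcs : ContinuousSMul ℝ Z := continuousSMul_of h0 h.banach.1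
    have h2 : TopologicalSpace.IsSeparable (Submodule.span ℝ (Set.range δ) : Set Z) :=
      (countable_range δ).isSeparable.span
    have h3 := h2.closure
    rw [h.dense.closure_eq] at h3
    exact TopologicalSpace.isSeparable_univ_iff.1 h3
  · obtain ⟨T, hT1, hT2, hT3, hT4⟩ := Pool.Agent.Y603.CM.commuting h
    refine ⟨T, hT1, hT2, fun n z => ?_, hT4⟩
    unfold pnorm
    exact Real.rpow_le_rpow (norm_nonneg _) (hT3 n z) (one_div_pos.2 h0).le

end Pool.Agent.Results.MP_557517_an.CommutingMAP
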